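import Pool.Agent.Lib.MP_fa793f_nt.Main

open Polynomial Pool.Agent.Lib.MP_fa793f_nt

/-- Over the field with two elements, `R = x / (x^2 + x + 1)` and `f = x` satisfy the hypotheses of
the question, while every transform of `f` is `x`, so the average degree is always `1`. -/
theorem Pool.Agent.Results.MP_fa793f_nt.Counterexample.result :
    ∃ g h f : (ZMod 2)[X], IsCoprime g h ∧ h ≠ 0 ∧ 1 ≤ max g.natDegree h.natDegree ∧
      1 ≤ f.natDegree ∧
      (∃ α : AlgebraicClosure (ZMod 2), aeval α f = 0 ∧ ¬ Critical (frac g h) α) ∧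
      ∀ n : ℕ, 1 ≤ ((transform g h)^[n] f).natDegree ∧ avgDeg ((transform g h)^[n] f) = 1 := by
  refine ⟨X, X ^ 2 + X + 1, X, coprime_ex, ne_zero_ex, by simp, by simp,
    ⟨0, by simp, not_critical_ex⟩, fun n => ?_⟩
  rw [Function.iterate_fixed (transform_X _) n]
  exact ⟨by simp, avgDeg_X⟩
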