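import Pool.Agent.Lib.MP_fa793f_nt.Main

open Polynomial Pool.Agent.Lib.MP_fa793f_nt

/-- The average degree grows at least linearly exactly when the degree of the squarefree part is
unbounded. -/
theorem Pool.Agent.Results.MP_fa793f_nt.Dichotomy.result :
    ∀ (F : Type) [Field F] [Fintype F] (g h f : F[X]), IsCoprime g h → h ≠ 0 →
      1 ≤ max g.natDegree h.natDegree → 1 ≤ f.natDegree →
      ((∃ c : ℝ, 0 < c ∧ ∀ᶠ n : ℕ in Filter.atTop, c * n ≤ avgDeg ((transform g h)^[n] f)) ↔
        ¬ ∃ M : ℕ, ∀ n : ℕ, sqfreeDeg ((transform g h)^[n] f) ≤ M) := by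
  intro F _ _ g h f hc hh hd hf
  exact dichotomy hc hh hd (by rintro rfl; simp at hf)
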