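import Pool.Agent.Lib.MP_fa793f_nt.Main

open Polynomial Pool.Agent.Lib.MP_fa793f_nt

/-- For the numerator of `f (R^(n))`, the average degree grows at least linearly for every `f` with
a root that is not `R`-critical. -/
theorem Pool.Agent.Results.MP_fa793f_nt.NumeratorOfIterate.result :
    ∀ (F : Type) [Field F] [Fintype F] (g h f : F[X]), IsCoprime g h → h ≠ 0 →
      1 ≤ max g.natDegree h.natDegree → 1 ≤ f.natDegree →
      (∃ α : AlgebraicClosure F, aeval α f = 0 ∧ ¬ Critical (frac g h) α) →
      ∃ c : ℝ, 0 < c ∧ ∀ᶠ n : ℕ in Filter.atTop,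
        c * n ≤ avgDeg (aeval (iter (frac g h) n) f : RatFunc F).num := by
  rintro F _ _ g h f hc hh hd hf ⟨α, h1, h2⟩
  exact linear_true_iterate hc hh hd (by rintro rfl; simp at hf) h1 h2
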